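import Pool.Agent.Lib_helper17.Triangle

set_option autoImplicit false

open MeasureTheory Set Filter Topology
open Pool.Agent.LibHelper17.Dirichlet

namespace Pool.Agent.Results.MP_c418e9_an.TriangleCounterexample

/-- The point `(a, b, 0, ..., 0)`. -/
noncomputable def pt (n : ℕ) (a b : ℝ) : EuclideanSpace ℝ (Fin (n + 2)) :=
  WithLp.toLp 2 (Fin.cons a (Fin.cons b (fun _ => 0)))

lemma pt_zero (n : ℕ) (a b : ℝ) : pt n a b 0 = a := rfl

lemma pt_one (n : ℕ) (a b : ℝ) : pt n a b 1 = b := rfl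

lemma pt_succ (n : ℕ) (a b : ℝ) (i : Fin n) : pt n a b i.succ.succ = 0 := rfl

lemma eig_pt (n : ℕ) (a b : ℝ) :
    eig n (pt n a b) = (4 * √3 / 9) * (Real.sin b * (Real.cos b - Real.cos (√3 * a))) := by
  unfold eig
  simp only [pt_zero, pt_one, pt_succ, Real.cos_zero, Finset.prod_const_one, mul_one]

lemma pt_mem (n : ℕ) {a b : ℝ} (h1 : 0 < b) (h2 : b < √3 * a) (h3 : √3 * a + b < 2 * Real.pi) :
    pt n a b ∈ dom n := by
  refine ⟨h1, h2, h3, ?_⟩
  intro i
  rw [pt_succ]
  have := Real.pi_pos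
  constructor <;> linarith

lemma mid (n : ℕ) (a b c d : ℝ) :
    (1 / 2 : ℝ) • pt n a b + (1 / 2 : ℝ) • pt n c d = pt n ((a + c) / 2) ((b + d) / 2) := by
  ext i
  simp only [PiLp.add_apply, PiLp.smul_apply, smul_eq_mul]
  refine Fin.cases ?_ (fun j => ?_) i
  · rw [pt_zero, pt_zero, pt_zero]; ring
  · refine Fin.cases ?_ (fun k => ?_) j
    · have e : (Fin.succ 0 : Fin (n + 2)) = 1 := rfl
      rw [e, pt_one, pt_one, pt_one]; ring
    · rw [pt_succ, pt_succ, pt_succ]; ring

lemma sqrt3_mul (t : ℝ) : √3 * (t / √3) = t := by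
  have : (√3 : ℝ) ≠ 0 := by positivity
  field_simp

/-- The value at the centroid is `1`. -/
lemma val_P (n : ℕ) : eig n (pt n (Real.pi / √3) (Real.pi / 3)) = 1 := by
  rw [eig_pt, sqrt3_mul, Real.cos_pi, Real.sin_pi_div_three, Real.cos_pi_div_three]
  have h3 : (√3 : ℝ) ^ 2 = 3 := Real.sq_sqrt (by norm_num)
  have : 4 * √3 / 9 * (√3 / 2 * (1 / 2 - -1)) = √3 ^ 2 / 3 := by ring
  rw [this, h3]; norm_num

lemma val_Q (n : ℕ) : eig n (pt n (3 * Real.pi / 4 / √3) (Real.pi / 4)) = 4 * √3 / 9 := by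
  rw [eig_pt, sqrt3_mul]
  have e : Real.cos (3 * Real.pi / 4) = - (√2 / 2) := by
    have : 3 * Real.pi / 4 = Real.pi - Real.pi / 4 := by ring
    rw [this, Real.cos_pi_sub, Real.cos_pi_div_four]
  rw [e, Real.sin_pi_div_four, Real.cos_pi_div_four]
  have h2 : (√2 : ℝ) ^ 2 = 2 := Real.sq_sqrt (by norm_num)
  have : √2 / 2 * (√2 / 2 - -(√2 / 2)) = √2 ^ 2 / 2 := by ring
  rw [this, h2]; ring

lemma val_M (n : ℕ) : eig n (pt n (7 * Real.pi / 8 / √3) (7 * Real.pi / 24))
    = √3 * (√2 * (√3 + 1) + 1) / 9 := by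
  rw [eig_pt, sqrt3_mul]
  have e1 : Real.sin (7 * Real.pi / 12) = √2 * (√3 + 1) / 4 := by
    have : 7 * Real.pi / 12 = Real.pi / 3 + Real.pi / 4 := by ring
    rw [this, Real.sin_add, Real.sin_pi_div_three, Real.cos_pi_div_three, Real.sin_pi_div_four,
      Real.cos_pi_div_four]
    ring
  have e2 : Real.sin (7 * Real.pi / 6) = - (1 / 2) := by
    have : 7 * Real.pi / 6 = Real.pi / 6 + Real.pi := by ring
    rw [this, Real.sin_add_pi, Real.sin_pi_div_six]
  have e3 : Real.sin (7 * Real.pi / 24) * Real.cos (7 * Real.pi / 24)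
      = Real.sin (7 * Real.pi / 12) / 2 := by
    have : 7 * Real.pi / 12 = 2 * (7 * Real.pi / 24) := by ring
    rw [this, Real.sin_two_mul]; ring
  have e4 : Real.sin (7 * Real.pi / 24) * Real.cos (7 * Real.pi / 8)
      = (Real.sin (7 * Real.pi / 6) - Real.sin (7 * Real.pi / 12)) / 2 := by
    have h1 : 7 * Real.pi / 6 = 7 * Real.pi / 24 + 7 * Real.pi / 8 := by ring
    have h2 : 7 * Real.pi / 12 = 7 * Real.pi / 8 - 7 * Real.pi / 24 := by ring
    rw [h1, h2, Real.sin_add, Real.sin_sub]; ring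
  rw [mul_sub, e3, e4, e1, e2]
  ring

/-- In every dimension `N ≥ 2` there is a bounded convex domain `Ω` and a positive first
Dirichlet eigenfunction `φ ≤ 1` of the Laplacian in `Ω` such that `√(-log φ)` is not convex
on `Ω`, i.e. `φ` is not `1/2`-log-concave. -/
theorem result : ∀ N : ℕ, 2 ≤ N →
    ∃ (Ω : Set (EuclideanSpace ℝ (Fin N))) (φ : EuclideanSpace ℝ (Fin N) → ℝ),
      Ω.Nonempty ∧ IsOpen Ω ∧ Convex ℝ Ω ∧ Bornology.IsBounded Ω ∧
      IsPositiveFirstDirichletEigenfunction Ω φ ∧ (∀ x ∈ Ω, φ x ≤ 1) ∧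
      ¬ ConvexOn ℝ Ω (fun x => √(-Real.log (φ x))) := by
  intro N hN
  obtain ⟨n, rfl⟩ : ∃ n, N = n + 2 := ⟨N - 2, by omega⟩
  have hpi := Real.pi_pos
  have hP : pt n (Real.pi / √3) (Real.pi / 3) ∈ dom n := by
    apply pt_mem <;> (try rw [sqrt3_mul]) <;> linarith
  have hQ : pt n (3 * Real.pi / 4 / √3) (Real.pi / 4) ∈ dom n := by
    apply pt_mem <;> (try rw [sqrt3_mul]) <;> linarith
  have hne : (dom n).Nonempty := ⟨_, hP⟩
  have hlam : firstDirichletEigenvalue (dom n) = (4 + n : ℝ) :=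
    firstDirichletEigenvalue_eq (dom_isOpen n) hne (dom_bounded n) (eig_contDiff n) (eig_pos n)
      (eig_boundary n) (fun x _ => eig_laplacian n x)
  refine ⟨dom n, eig n, hne, dom_isOpen n, dom_convex n, dom_bounded n, ?_, eig_le_one n, ?_⟩
  · exact {
      contDiffOn := (contDiff_infty.1 (eig_contDiff n) 2).contDiffOn
      continuousOn := (eig_contDiff n).continuous.continuousOn
      eigen := by
        intro x _
        rw [hlam, eig_laplacian]
        ring
      pos := eig_pos n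
      boundary := eig_boundary n }
  · intro hconv
    have h := hconv.2 hP hQ (by norm_num : (0 : ℝ) ≤ 1 / 2) (by norm_num : (0 : ℝ) ≤ 1 / 2)
      (by norm_num)
    rw [mid] at h
    have e1 : (Real.pi / √3 + 3 * Real.pi / 4 / √3) / 2 = 7 * Real.pi / 8 / √3 := by
      have : (√3 : ℝ) ≠ 0 := by positivity
      field_simp
      ring
    have e2 : (Real.pi / 3 + Real.pi / 4) / 2 = 7 * Real.pi / 24 := by ring
    rw [e1, e2] at h
    simp only [val_P, val_Q, val_M, Real.log_one, neg_zero, Real.sqrt_zero, smul_eq_mul,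
      mul_zero, zero_add] at h
    set m : ℝ := √3 * (√2 * (√3 + 1) + 1) / 9 with hm
    set q : ℝ := 4 * √3 / 9 with hq
    have h2a : √2 < 1.4143 := by
      rw [Real.sqrt_lt' (by norm_num)]; norm_num
    have h3a : √3 < 1.7321 := by
      rw [Real.sqrt_lt' (by norm_num)]; norm_num
    have h3b : 1.732 < √3 := by
      rw [Real.lt_sqrt (by norm_num)]; norm_num
    have h20 : 0 < √2 := by positivity
    have h30 : 0 < √3 := by positivity
    have hm0 : 0 < m := by positivity
    have hq0 : 0 < q := by positivity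
    have hmle : m < 0.9362 := by
      have a1 : √2 * (√3 + 1) + 1 < 1.4143 * (1.7321 + 1) + 1 := by
        have : √2 * (√3 + 1) < 1.4143 * (1.7321 + 1) :=
          mul_lt_mul'' h2a (by linarith) h20.le (by positivity)
        linarith
      have a2 : √3 * (√2 * (√3 + 1) + 1) < 1.7321 * (1.4143 * (1.7321 + 1) + 1) :=
        mul_lt_mul'' h3a a1 h30.le (by positivity)
      rw [hm]
      rw [div_lt_iff₀ (by norm_num)]
      refine a2.trans ?_
      norm_num
    have hm4 : m ^ 4 < q := by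
      have a1 : m ^ 4 < 0.9362 ^ 4 := pow_lt_pow_left₀ hmle hm0.le (by norm_num)
      have a2 : (0.9362 : ℝ) ^ 4 < 0.7697 := by norm_num
      have a3 : (0.7697 : ℝ) < q := by
        rw [hq, lt_div_iff₀ (by norm_num)]
        linarith
      linarith
    have hm1 : m < 1 := by linarith
    have hq1 : q < 1 := by
      rw [hq, div_lt_iff₀ (by norm_num)]
      linarith
    have hlm : 0 ≤ -Real.log m := by
      have := Real.log_neg hm0 hm1
      linarith
    have hlq : 0 ≤ -Real.log q := by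
      have := Real.log_neg hq0 hq1
      linarith
    have hs := pow_le_pow_left₀ (Real.sqrt_nonneg _) h 2
    rw [mul_pow, Real.sq_sqrt hlm, Real.sq_sqrt hlq] at hs
    have hlog : Real.log (m ^ 4) < Real.log q := Real.log_lt_log (by positivity) hm4
    rw [Real.log_pow] at hlog
    push_cast at hlog
    linarith

end Pool.Agent.Results.MP_c418e9_an.TriangleCounterexample
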